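import Pool.Agent.P.MP_23b0f8_an.Unb

open Pool.Agent.P.MP_23b0f8_an

namespace Pool.Agent.Results.MP_23b0f8_an.BadlyApproximable

open Classical in
/-- In every interval, the irrational arcs `D` that fail the Kesten condition and satisfy the
diffraction condition form the empty set if `γ` is badly approximable, and a set with the
cardinality of the continuum otherwise. -/
theorem result (γ a b : ℝ) (X : Set ℝ) (hγ : Irrational γ) (ha : 0 ≤ a) (hab : a < b)
    (hb : b ≤ 1) (hX : X.Nonempty) :
    Cardinal.mk {D : ℝ | D ∈ Set.Ioo a b ∧ Irrational D ∧ (¬ ∃ j k : ℤ, D = j * γ + k) ∧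
      ∀ x₀ ∈ X, DiffractionCondition (circleSeq D γ x₀)} =
    if ∃ c : ℝ, 0 < c ∧ ∀ (q : ℕ) (p : ℤ), 0 < q → c / q ≤ |q * γ - p| then 0
      else Cardinal.continuum :=
  dichotomy hγ ha hab hb hX

end Pool.Agent.Results.MP_23b0f8_an.BadlyApproximable
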