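import Mathlib
import Pool.Agent.P.MP_23b0f8_an.Defs
import Pool.Agent.P.MP_23b0f8_an.PR5

open MeasureTheory Pool.Agent.P.MP_23b0f8_an

namespace Pool.Agent.Results.MP_23b0f8_an.PureDichotomy

open Classical in
/-- In every interval, the arcs `D` outside `ℚ γ + ℚ` whose circle map sequences satisfy the
diffraction condition with a pure point diffraction measure form the empty set if `γ` is badly
approximable, and a set with the cardinality of the continuum otherwise. -/
theorem result (γ a b : ℝ) (hγ : Irrational γ) (ha : 0 ≤ a) (hab : a < b) (hb : b ≤ 1) :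
    Cardinal.mk {D : ℝ | D ∈ Set.Ioo a b ∧ (¬ ∃ r s : ℚ, D = r * γ + s) ∧
      ∀ x₀ : ℝ, DiffractionCondition (circleSeq D γ x₀) ∧
        ∀ η μ : Measure ℝ, IsAutocorrelation (circleSeq D γ x₀) η → IsFourierTransform η μ →
          μ {s : ℝ | μ {s} = 0} = 0} =
    if ∃ c : ℝ, 0 < c ∧ ∀ (q : ℕ) (p : ℤ), 0 < q → c / q ≤ |q * γ - p| then 0
      else Cardinal.continuum := by
  split_ifs with h
  · obtain ⟨c, hc, h⟩ := h
    refine Cardinal.mk_set_eq_zero_iff.2 (Set.eq_empty_of_forall_notMem fun D ⟨h1, h2, h3⟩ => ?_)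
    obtain ⟨j, k, e⟩ := kesten_of_bad hγ hc h ⟨ha.trans_lt h1.1, h1.2.trans_le hb⟩
      (fun ⟨r, hr⟩ => h2 ⟨0, r, by simp [hr]⟩) (h3 0).1.peak
    exact h2 ⟨j, k, by simpa using e⟩
  · exact LR.continuum hγ h ha hab hb

end Pool.Agent.Results.MP_23b0f8_an.PureDichotomy
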