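import Mathlib
import Pool.Agent.P.MP_23b0f8_an.Defs
import Pool.Agent.P.MP_23b0f8_an.PQ5

open MeasureTheory Pool.Agent.P.MP_23b0f8_an

namespace Pool.Agent.Results.MP_23b0f8_an.PurePoint

/-- For every well approximable `γ`, every interval holds uncountably many arcs `D` outside
`ℚ γ + ℚ` whose circle map sequences satisfy the diffraction condition with a diffraction measure
carried by the rational multiples of one real number. -/
theorem result (γ a b : ℝ) (hγ : LiouvilleWith 14 γ) (ha : 0 ≤ a) (hab : a < b) (hb : b ≤ 1) :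
    ¬ {D : ℝ | D ∈ Set.Ioo a b ∧ (¬ ∃ r s : ℚ, D = r * γ + s) ∧
      ∃ c : ℝ, ∀ x₀ : ℝ, DiffractionCondition (circleSeq D γ x₀) ∧
        ∀ η μ : Measure ℝ, IsAutocorrelation (circleSeq D γ x₀) η → IsFourierTransform η μ →
          μ {s : ℝ | ¬ ∃ r : ℚ, s = r * c} = 0}.Countable :=
  LQ.uncountable hγ ha hab hb

end Pool.Agent.Results.MP_23b0f8_an.PurePoint
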